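import Pool.Agent.Helper630.Stable.Defs
import Pool.Agent.Helper630.Stable.T6

open MeasureTheory
open scoped ENNReal
open Pool.Agent.Helper630.StableDefs

namespace Pool.Agent.Results.MP_119be6_an.StableNotSumming

/-- a sequence of disjoint subintervals of `[0,1]` -/
noncomputable def sys : Pool.Agent.Helper630.Stable.Sys lebI ℕ where
  G n := Set.Ioc (1 / ((n : ℝ) + 2)) (1 / ((n : ℝ) + 1))
  meas n := measurableSet_Ioc
  disj k l h := by
    wlog hkl : k < l generalizing k l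
    · exact (this l k h.symm (by omega)).symm
    rw [Set.disjoint_left]
    intro x hx hx'
    have h1 : 1 / ((l : ℝ) + 1) ≤ 1 / ((k : ℝ) + 2) := by
      apply one_div_le_one_div_of_le (by positivity)
      have : (k : ℝ) + 1 ≤ l := by exact_mod_cast hkl
      linarith
    have h2 := hx.1
    have h3 := hx'.2
    linarith
  fin n := by
    unfold lebI
    exact measure_ne_top _ _
  pos n := by
    have h1 : Set.Ioc (1 / ((n : ℝ) + 2)) (1 / ((n : ℝ) + 1)) ⊆ Set.Icc 0 1 := by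
      intro x hx
      refine ⟨?_, ?_⟩
      · have : (0 : ℝ) < 1 / ((n : ℝ) + 2) := by positivity
        linarith [hx.1]
      · refine hx.2.trans ?_
        rw [div_le_one (by positivity)]
        linarith [(Nat.cast_nonneg n : (0 : ℝ) ≤ n)]
    have h2 : 1 / ((n : ℝ) + 2) < 1 / ((n : ℝ) + 1) := by
      apply one_div_lt_one_div_of_lt (by positivity)
      linarith
    unfold lebI
    rw [Measure.restrict_apply measurableSet_Ioc, Set.inter_eq_left.mpr h1, Real.volume_Ioc,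
      ENNReal.toReal_ofReal (by linarith)]
    linarith

theorem exists_stable (p q : ℝ≥0∞) [Fact (1 ≤ p)] [Fact (1 ≤ q)] (hp2 : 2 < p) (hp : p < ∞)
    (hpq : p⁻¹ + q⁻¹ = 1) :
    ∃ U : Op p q, StablyRegular U ∧ ¬ AbsSumming q.toReal q U := by
  have : ENNReal.HolderConjugate p q := ENNReal.holderConjugate_iff.mpr hpq
  have hp2' : 2 < p.toReal := by
    have := (ENNReal.toReal_lt_toReal (by simp) hp.ne).mpr hp2
    simpa using this
  have hpq' : q.toReal.HolderConjugate p.toReal :=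
    (ENNReal.HolderConjugate.toReal (p := p) (q := q) (by linarith)).symm
  have hq : q ≠ ∞ := by
    intro h
    have := hpq'.pos
    rw [h] at this
    simp at this
  obtain ⟨U, hU1, hU2⟩ := Pool.Agent.Helper630.Stable.main_op hpq' hp.ne hq hp2' sys
  have hq0 : 0 < q.toReal := hpq'.pos
  refine ⟨U, ?_, ?_⟩
  · intro V W S hS
    obtain ⟨g, hg0, hg⟩ := hS
    have hg0' : (0 : Lp ℝ p lebI) ≤ (g : Lp ℝ p lebI) := (Lp.coeFn_nonneg (g : Lp ℝ p lebI)).mp hg0
    obtain ⟨h, hh⟩ := hU1 V W g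
    have h0 : 0 ≤ h := by
      have := (hh 0 (neg_nonpos.mpr hg0') hg0').1
      simpa using this
    refine ⟨h, (Lp.coeFn_nonneg h).mpr h0, ?_⟩
    rintro _ ⟨f, hf, rfl⟩
    let f' : Lp ℝ p lebI := f
    let g' : Lp ℝ p lebI := g
    have hf1 : -g' ≤ f' := by
      rw [← Lp.coeFn_le]
      filter_upwards [hg f hf, Lp.coeFn_neg g'] with t h1 h2
      rw [h2]
      exact h1.1
    have hf2 : f' ≤ g' := by
      rw [← Lp.coeFn_le]
      filter_upwards [hg f hf] with t h1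
      exact h1.2
    have h1 := hh f hf1 hf2
    have h2 := (Lp.coeFn_le _ _).mpr (neg_le.mp h1.2)
    have h3 := (Lp.coeFn_le _ _).mpr h1.1
    filter_upwards [h2, h3, Lp.coeFn_neg h] with t h4 h5 h6
    rw [h6] at h4
    exact ⟨h4, h5⟩
  · rintro ⟨C, hC⟩
    obtain ⟨N, x, hx1, hx2⟩ := hU2 ((|C| + 1) ^ q.toReal)
    have h1 := hC N x
    have h2 : (⨆ f : {f : LI q // ‖f‖ ≤ 1},
        (∑ k, |pairing (x k : LI p) f.1| ^ q.toReal) ^ (1 / q.toReal)) ≤ 1 := by
      have : Nonempty {f : LI q // ‖f‖ ≤ 1} := ⟨⟨0, by simp⟩⟩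
      refine ciSup_le fun f => ?_
      have h3 := hx1 f.1
      have h4 : ‖f.1‖ ^ q.toReal ≤ 1 := Real.rpow_le_one (norm_nonneg _) f.2 hq0.le
      refine Real.rpow_le_one (Finset.sum_nonneg fun k _ => Real.rpow_nonneg (abs_nonneg _) _)
        (h3.trans h4) (by positivity)
    have h0 : 0 ≤ (⨆ f : {f : LI q // ‖f‖ ≤ 1},
        (∑ k, |pairing (x k : LI p) f.1| ^ q.toReal) ^ (1 / q.toReal)) :=
      Real.iSup_nonneg fun f =>
        Real.rpow_nonneg (Finset.sum_nonneg fun k _ => Real.rpow_nonneg (abs_nonneg _) _) _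
    have h5 : |C| + 1 ≤ (∑ k, ‖U (x k)‖ ^ q.toReal) ^ (1 / q.toReal) := by
      have h6 := Real.rpow_le_rpow (by positivity) hx2 (by positivity : 0 ≤ 1 / q.toReal)
      rwa [← Real.rpow_mul (by positivity), mul_one_div_cancel hq0.ne', Real.rpow_one] at h6
    have h8 := h5.trans h1
    set s := (⨆ f : {f : LI q // ‖f‖ ≤ 1},
        (∑ k, |pairing (x k : LI p) f.1| ^ q.toReal) ^ (1 / q.toReal))
    have h7 : C * s ≤ |C| := by
      calc C * s ≤ |C| * s := mul_le_mul_of_nonneg_right (le_abs_self _) h0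
        _ ≤ |C| * 1 := mul_le_mul_of_nonneg_left h2 (abs_nonneg _)
        _ = |C| := mul_one _
    linarith

/-- For every `p` in `(2,∞)`, with `q = p'` the conjugate exponent, there is a stably regular
operator `L^p[0,1] → L^{p'}[0,1]` that is not `p'`-absolutely summing; in particular it is not true
that the two classes coincide for every `p` in `(2,∞)`. -/
theorem result :
    (∀ (p q : ℝ≥0∞) [Fact (1 ≤ p)] [Fact (1 ≤ q)], 2 < p → p < ∞ → p⁻¹ + q⁻¹ = 1 →
      ∃ U : Op p q, StablyRegular U ∧ ¬ AbsSumming q.toReal q U) ∧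
    ¬ (∀ (p q : ℝ≥0∞) [Fact (1 ≤ p)] [Fact (1 ≤ q)], 2 < p → p < ∞ → p⁻¹ + q⁻¹ = 1 →
      {U : Op p q | StablyRegular U} = {U : Op p q | AbsSumming q.toReal q U}) := by
  refine ⟨fun p q _ _ h1 h2 h3 => exists_stable p q h1 h2 h3, fun hcon => ?_⟩
  have i1 : Fact ((1 : ℝ≥0∞) ≤ 4) := ⟨by norm_num⟩
  have h4 : (4 : ℝ≥0∞) < ∞ := by
    simp
  have hconj : (4 : ℝ≥0∞)⁻¹ + (4 / 3 : ℝ≥0∞)⁻¹ = 1 := by
    rw [ENNReal.inv_div (by simp) (by simp)]
    rw [← one_div, ← ENNReal.add_div]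
    norm_num
    exact ENNReal.div_self (by norm_num) (by norm_num)
  have i2 : Fact ((1 : ℝ≥0∞) ≤ 4 / 3) := ⟨by
    rw [ENNReal.le_div_iff_mul_le (by simp) (by simp)]
    norm_num⟩
  obtain ⟨U, hU1, hU2⟩ := exists_stable 4 (4 / 3) (by norm_num) h4 hconj
  have h5 := hcon 4 (4 / 3) (by norm_num) h4 hconj
  have h6 : U ∈ {U : Op 4 (4 / 3) | StablyRegular U} := hU1
  rw [h5] at h6
  exact hU2 h6

end Pool.Agent.Results.MP_119be6_an.StableNotSumming
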